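import Pool.Agent.H62.Sep.LW

open Metric Module

namespace Pool.Agent.H62.Sep

lemma adj_iff {C : Finset E3} (hP : IsUnitPacking C) {a b : E3} :
    (contactGraph C).Adj a b ↔ a ∈ C ∧ b ∈ C ∧ dist a b = 1 := by
  constructor
  · rintro ⟨ha, hb, hne, ht⟩
    rw [touch_iff] at ht
    exact ⟨ha, hb, le_antisymm ht (one_le_dist hP ha hb hne)⟩
  · rintro ⟨ha, hb, hd⟩
    refine ⟨ha, hb, ?_, touch_iff.mpr hd.le⟩
    rintro rfl
    simp at hd

lemma edgeSet_finite (C : Finset E3) : (contactGraph C).edgeSet.Finite := by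
  classical
  apply ((C ×ˢ C).image fun p : E3 × E3 => s(p.1, p.2)).finite_toSet.subset
  intro x hx
  induction x with
  | _ a b =>
    rw [SimpleGraph.mem_edgeSet] at hx
    simp only [Finset.coe_image, Set.mem_image, Finset.mem_coe, Finset.mem_product]
    exact ⟨(a, b), ⟨hx.1, hx.2.1⟩, rfl⟩

open scoped Classical in
lemma edgeSet_eq {C : Finset E3} (hP : IsUnitPacking C) :
    (contactGraph C).edgeSet =
      ((((C ×ˢ C).filter fun p : E3 × E3 => dist p.1 p.2 = 1).image
        fun p : E3 × E3 => s(p.1, p.2) : Finset (Sym2 E3)) : Set (Sym2 E3)) := by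
  ext x
  induction x with
  | _ a b =>
    rw [SimpleGraph.mem_edgeSet, adj_iff hP]
    simp only [Finset.coe_image, Set.mem_image, Finset.mem_coe, Finset.mem_filter,
      Finset.mem_product]
    constructor
    · rintro ⟨ha, hb, hd⟩
      exact ⟨(a, b), ⟨⟨ha, hb⟩, hd⟩, rfl⟩
    · rintro ⟨⟨c, d⟩, ⟨⟨hc, hd⟩, hcd⟩, h⟩
      simp only at hc hd hcd h
      rw [Sym2.eq_iff] at h
      rcases h with ⟨rfl, rfl⟩ | ⟨rfl, rfl⟩
      · exact ⟨hc, hd, hcd⟩
      · exact ⟨hd, hc, by rw [dist_comm]; exact hcd⟩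

lemma two_mul_contactNumber {C : Finset E3} (hP : IsUnitPacking C) :
    2 * contactNumber C = ∑ a ∈ C, (dirs C a).card := by
  classical
  set P := (C ×ˢ C).filter fun p : E3 × E3 => dist p.1 p.2 = 1 with hPdef
  have h1 : contactNumber C = (P.image fun p : E3 × E3 => s(p.1, p.2)).card := by
    unfold contactNumber
    rw [edgeSet_eq hP, Set.ncard_coe_finset]
  have h2 : P.card = ∑ x ∈ P.image fun p : E3 × E3 => s(p.1, p.2),
      (P.filter fun p => s(p.1, p.2) = x).card :=
    Finset.card_eq_sum_card_image _ _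
  have h3 : ∀ x ∈ P.image fun p : E3 × E3 => s(p.1, p.2),
      (P.filter fun p => s(p.1, p.2) = x).card = 2 := by
    intro x hx
    rw [Finset.mem_image] at hx
    obtain ⟨⟨a, b⟩, hab, rfl⟩ := hx
    rw [hPdef, Finset.mem_filter, Finset.mem_product] at hab
    obtain ⟨⟨ha, hb⟩, hd⟩ := hab
    simp only at ha hb hd
    have hne : a ≠ b := by
      rintro rfl
      simp at hd
    have : (P.filter fun p => s(p.1, p.2) = s(a, b)) = {(a, b), (b, a)} := by
      ext ⟨c, d⟩
      simp only [hPdef, Finset.mem_filter, Finset.mem_product, Finset.mem_insert,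
        Finset.mem_singleton, Sym2.eq_iff, Prod.mk.injEq]
      constructor
      · rintro ⟨_, h⟩
        exact h
      · rintro (⟨rfl, rfl⟩ | ⟨rfl, rfl⟩)
        · exact ⟨⟨⟨ha, hb⟩, hd⟩, Or.inl ⟨rfl, rfl⟩⟩
        · exact ⟨⟨⟨hb, ha⟩, by rw [dist_comm]; exact hd⟩, Or.inr ⟨rfl, rfl⟩⟩
    rw [this, Finset.card_pair]
    simp only [ne_eq, Prod.mk.injEq, not_and]
    intro h
    exact absurd h hne
  rw [Finset.sum_congr rfl h3, Finset.sum_const, smul_eq_mul, ← h1] at h2
  rw [mul_comm, ← h2]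
  have h4 : P.card = ∑ a ∈ C, (P.filter fun p => p.1 = a).card := by
    apply Finset.card_eq_sum_card_fiberwise
    intro p hp
    have hp' : p ∈ P := hp
    rw [hPdef, Finset.mem_filter, Finset.mem_product] at hp'
    exact hp'.1.1
  rw [h4]
  apply Finset.sum_congr rfl
  intro a ha
  unfold dirs
  rw [Finset.card_image_of_injective _ (sub_left_injective)]
  rw [← Finset.card_image_of_injOn (f := fun p : E3 × E3 => p.2)]
  · congr 1
    ext b
    simp only [hPdef, Finset.mem_image, Finset.mem_filter, Finset.mem_product]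
    constructor
    · rintro ⟨⟨c, d⟩, ⟨⟨⟨hc, hd⟩, hcd⟩, rfl⟩, rfl⟩
      exact ⟨hd, hcd⟩
    · rintro ⟨hb, hd⟩
      exact ⟨(a, b), ⟨⟨⟨ha, hb⟩, hd⟩, rfl⟩, rfl⟩
  · intro p hp q hq hpq
    simp only [Finset.coe_filter, Set.mem_ofPred_eq] at hp hq
    exact Prod.ext (hp.2.trans hq.2.symm) hpq

/-- the upper bound on the contact number, in the form `3 (n - 2 t)^{2/3} ≤ t` with
`t = 3 n - e` -/
lemma contact_key {C : Finset E3} (h : IsTotallySeparable C) :
    3 * ((six C).card : ℝ) ^ ((2 : ℝ) / 3) ≤ 3 * (C.card : ℝ) - contactNumber C ∧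
      (C.card : ℝ) - 2 * (3 * (C.card : ℝ) - contactNumber C) ≤ ((six C).card : ℝ) := by
  classical
  have hS := star_of_totallySeparable h
  have h1 := six_rpow_le hS
  have h2 := two_mul_contactNumber h.1
  have h2' : 2 * (contactNumber C : ℝ) = ∑ a ∈ C, ((dirs C a).card : ℝ) := by
    exact_mod_cast h2
  have h3 : ∑ z ∈ C, (6 - ((dirs C z).card : ℝ)) = 6 * C.card - 2 * contactNumber C := by
    rw [Finset.sum_sub_distrib, ← h2', Finset.sum_const, nsmul_eq_mul]
    ring
  refine ⟨by linarith, ?_⟩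
  have h4 : ((C.filter fun a => ¬ (dirs C a).card = 6).card : ℝ) ≤
      ∑ z ∈ C, (6 - ((dirs C z).card : ℝ)) := by
    have : ((C.filter fun a => ¬ (dirs C a).card = 6).card : ℝ) =
        ∑ z ∈ C, if ¬ (dirs C z).card = 6 then (1 : ℝ) else 0 := by
      rw [Finset.sum_boole]
    rw [this]
    apply Finset.sum_le_sum
    intro z hz
    have h5 := dirs_card_le hS hz
    by_cases h6 : (dirs C z).card = 6
    · have h8 : ((dirs C z).card : ℝ) ≤ 6 := by exact_mod_cast h5
      rw [if_neg (not_not.mpr h6)]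
      linarith
    · have h7 : (dirs C z).card ≤ 5 := by omega
      have h8 : ((dirs C z).card : ℝ) ≤ 5 := by exact_mod_cast h7
      rw [if_pos h6]
      linarith
  have h5 : ((six C).card : ℝ) + ((C.filter fun a => ¬ (dirs C a).card = 6).card : ℝ) =
      C.card := by
    have := Finset.card_filter_add_card_filter_not (s := C) (fun a => (dirs C a).card = 6)
    unfold six
    exact_mod_cast this
  linarith

lemma contactNumber_le {C : Finset E3} (h : IsTotallySeparable C) :
    contactNumber C ≤ 3 * C.card := by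
  have hS := star_of_totallySeparable h
  have h2 := two_mul_contactNumber h.1
  have h3 : ∑ a ∈ C, (dirs C a).card ≤ ∑ a ∈ C, 6 := Finset.sum_le_sum fun a ha => dirs_card_le hS ha
  rw [Finset.sum_const, smul_eq_mul] at h3
  omega

end Pool.Agent.H62.Sep
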