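import Pool.Agent.H62.Sep.Cross

open Metric Module

namespace Pool.Agent.H62.Sep

open scoped Classical in
/-- centres with six contacts -/
noncomputable def six (C : Finset E3) : Finset E3 := C.filter fun a => (dirs C a).card = 6

open scoped Classical in
/-- centres with six contacts whose set of contact directions is `F` -/
noncomputable def cls (C F : Finset E3) : Finset E3 := (six C).filter fun a => dirs C a = F

open scoped Classical in
/-- the frames (sets of contact directions) of the centres with six contacts -/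
noncomputable def frames (C : Finset E3) : Finset (Finset E3) := (six C).image (dirs C)

/-- projection along `f` -/
noncomputable def proj (f x : E3) : E3 := x - (inner ℝ f x : ℝ) • f

lemma proj_add_smul {f : E3} (hf : ‖f‖ = 1) (a : E3) (s : ℝ) : proj f (a + s • f) = proj f a := by
  unfold proj
  rw [inner_add_right, inner_smul_right, real_inner_self_eq_norm_sq, hf]
  module

/-- `z` is the last ball of the chain that starts at `a` in direction `f` -/
def ChainEnd (C : Finset E3) (a f z : E3) : Prop :=
  ∃ m : ℕ, 1 ≤ m ∧ z = a + (m : ℝ) • f ∧ (∀ i : ℕ, i ≤ m → a + (i : ℝ) • f ∈ C) ∧ z + f ∉ C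

lemma exists_chainEnd {C : Finset E3} {a f : E3} (ha : a ∈ C) (hf : f ∈ dirs C a) :
    ∃ z ∈ C, ChainEnd C a f z := by
  classical
  rw [mem_dirs] at hf
  have hf0 : f ≠ 0 := by
    rintro rfl
    simp at hf
  have hex : ∃ k : ℕ, a + (k : ℝ) • f ∉ C := by
    by_contra hcon
    push Not at hcon
    have hinj : Function.Injective fun k : ℕ => a + (k : ℝ) • f := by
      intro k l hkl
      simp only [add_right_inj] at hkl
      have := smul_left_injective ℝ hf0 hkl
      exact_mod_cast this
    have := Set.infinite_range_of_injective hinj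
    apply this
    apply (Finset.finite_toSet C).subset
    rintro _ ⟨k, rfl⟩
    exact hcon k
  set k := Nat.find hex with hk
  have hk1 : a + (k : ℝ) • f ∉ C := Nat.find_spec hex
  have hk2 : ∀ i < k, a + (i : ℝ) • f ∈ C := fun i hi => by
    have := Nat.find_min hex hi
    push Not at this
    exact this
  have hk0 : k ≠ 0 := by
    intro h
    rw [h] at hk1
    simp at hk1
    exact hk1 ha
  have hk01 : k ≠ 1 := by
    intro h
    rw [h] at hk1
    simp at hk1
    exact hk1 hf.1
  refine ⟨a + ((k - 1 : ℕ) : ℝ) • f, hk2 _ (by omega), k - 1, by omega, rfl,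
    fun i hi => hk2 i (by omega), ?_⟩
  have : a + ((k - 1 : ℕ) : ℝ) • f + f = a + (k : ℝ) • f := by
    have h1 : ((k - 1 : ℕ) : ℝ) = (k : ℝ) - 1 := by
      rw [Nat.cast_sub (by omega)]; simp
    rw [h1]
    module
  rw [this]
  exact hk1

open scoped Classical in
/-- missing contacts attributed to the frame `F` -/
noncomputable def miss (C F : Finset E3) : Finset (E3 × E3) :=
  (C ×ˢ F).filter fun p => ∃ a ∈ cls C F, ChainEnd C a p.2 p.1

lemma cls_mem {C F : Finset E3} {a : E3} (h : a ∈ cls C F) :
    a ∈ C ∧ (dirs C a).card = 6 ∧ dirs C a = F := by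
  classical
  unfold cls six at h
  rw [Finset.mem_filter, Finset.mem_filter] at h
  exact ⟨h.1.1, h.1.2, h.2⟩

open scoped Classical in
lemma sum_proj_le_miss (C F : Finset E3) :
    ∑ f ∈ F, ((cls C F).image (proj f)).card ≤ (miss C F).card := by
  have h1 : (miss C F).card = ∑ f ∈ F, ((miss C F).filter fun p => p.2 = f).card := by
    apply Finset.card_eq_sum_card_fiberwise
    intro p hp
    have hp' : p ∈ miss C F := hp
    unfold miss at hp'
    rw [Finset.mem_filter, Finset.mem_product] at hp'
    exact hp'.1.2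
  rw [h1]
  apply Finset.sum_le_sum
  intro f hf
  have h2 : (cls C F).image (proj f) ⊆
      ((miss C F).filter fun p => p.2 = f).image fun p => proj f p.1 := by
    intro x hx
    rw [Finset.mem_image] at hx
    obtain ⟨a, ha, rfl⟩ := hx
    obtain ⟨haC, h6, hF⟩ := cls_mem ha
    have hfa : f ∈ dirs C a := by rw [hF]; exact hf
    obtain ⟨z, hz, hch⟩ := exists_chainEnd haC hfa
    rw [Finset.mem_image]
    refine ⟨(z, f), ?_, ?_⟩
    · rw [Finset.mem_filter]
      refine ⟨?_, rfl⟩
      unfold miss
      rw [Finset.mem_filter, Finset.mem_product]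
      exact ⟨⟨hz, hf⟩, a, ha, hch⟩
    · obtain ⟨m, _, hm, _⟩ := hch
      simp only
      rw [hm, proj_add_smul (mem_dirs.mp hfa).2]
  exact (Finset.card_le_card h2).trans Finset.card_image_le

lemma miss_disjoint {C : Finset E3} (hS : Star C) {F G : Finset E3} (hFG : F ≠ G) :
    Disjoint (miss C F) (miss C G) := by
  classical
  rw [Finset.disjoint_left]
  rintro ⟨z, f⟩ h1 h2
  unfold miss at h1 h2
  rw [Finset.mem_filter, Finset.mem_product] at h1 h2
  obtain ⟨⟨hz, hfF⟩, a, ha, m, hm1, hzm, -, -⟩ := h1
  obtain ⟨⟨-, hfG⟩, b, hb, l, hl1, hzl, -, -⟩ := h2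
  obtain ⟨haC, ha6, haF⟩ := cls_mem ha
  obtain ⟨hbC, hb6, hbG⟩ := cls_mem hb
  simp only at hfF hfG hzm hzl
  apply hFG
  have hab : a = b + ((l : ℝ) - m) • f := by
    have : a + (m : ℝ) • f = b + (l : ℝ) • f := by rw [← hzm, ← hzl]
    rw [sub_smul, ← add_sub_assoc, ← this]
    simp
  have hsub : dirs C a ⊆ dirs C b := by
    have := dirs_subset_of_line hS hbC hb6 (f := f) (by rw [hbG]; exact hfG)
      (s := (l : ℝ) - m) (by rw [← hab]; exact haC)
    rwa [← hab] at this
  have := Finset.eq_of_subset_of_card_le hsub (by rw [ha6, hb6])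
  rw [← haF, ← hbG, this]

open scoped Classical in
lemma fiber_miss_le {C : Finset E3} (hS : Star C) {z : E3} (hz : z ∈ C) :
    (((frames C).biUnion (miss C)).filter fun p => p.1 = z).card ≤ 6 - (dirs C z).card := by
  set T := ((frames C).biUnion (miss C)).filter fun p => p.1 = z with hT
  rcases T.eq_empty_or_nonempty with h0 | ⟨p, hp⟩
  · rw [h0]; simp
  have hTmem : ∀ q ∈ T, ∃ a ∈ C, (dirs C a).card = 6 ∧ q.2 ∈ dirs C a ∧ ChainEnd C a q.2 z := by
    intro q hq
    rw [hT, Finset.mem_filter, Finset.mem_biUnion] at hq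
    obtain ⟨⟨F, hF, hq⟩, hqz⟩ := hq
    unfold miss at hq
    rw [Finset.mem_filter, Finset.mem_product] at hq
    obtain ⟨⟨-, h2⟩, a, ha, hch⟩ := hq
    obtain ⟨haC, h6, haF⟩ := cls_mem ha
    exact ⟨a, haC, h6, by rw [haF]; exact h2, by rw [← hqz]; exact hch⟩
  obtain ⟨a, haC, ha6, hfa, m, hm1, hzm, hmC, hzf⟩ := hTmem p hp
  have hsub : dirs C z ⊆ dirs C a := by
    rw [hzm]
    exact dirs_subset_of_line hS haC ha6 hfa (by rw [← hzm]; exact hz)
  have hinj : Set.InjOn (fun q : E3 × E3 => q.2) T := by
    intro q hq r hr hqr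
    have hq' : q ∈ T := hq
    have hr' : r ∈ T := hr
    rw [hT, Finset.mem_filter] at hq' hr'
    exact Prod.ext (hq'.2.trans hr'.2.symm) hqr
  rw [← Finset.card_image_of_injOn hinj]
  have himg : T.image (fun q : E3 × E3 => q.2) ⊆ dirs C a \ dirs C z := by
    intro g hg
    rw [Finset.mem_image] at hg
    obtain ⟨q, hq, rfl⟩ := hg
    obtain ⟨b, hbC, hb6, hgb, l, hl1, hzl, hlC, hzg⟩ := hTmem q hq
    have hgn : ‖q.2‖ = 1 := (mem_dirs.mp hgb).2
    rw [Finset.mem_sdiff]
    have h1 : -q.2 ∈ dirs C z := by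
      rw [mem_dirs]
      refine ⟨?_, by rw [norm_neg]; exact hgn⟩
      have h2 := hlC (l - 1) (by omega)
      have h3 : z + -q.2 = b + ((l - 1 : ℕ) : ℝ) • q.2 := by
        rw [hzl, Nat.cast_sub hl1]
        push_cast
        module
      rw [h3]; exact h2
    refine ⟨?_, ?_⟩
    · have h2 := dirs_neg hS haC ha6 (hsub h1)
      simpa using h2
    · rw [mem_dirs]
      intro h
      exact hzg h.1
  refine (Finset.card_le_card himg).trans ?_
  rw [Finset.card_sdiff_of_subset hsub, ha6]

/-- the main counting inequality -/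
lemma sum_sum_proj_le {C : Finset E3} (hS : Star C) :
    open scoped Classical in
    ∑ F ∈ frames C, ∑ f ∈ F, ((cls C F).image (proj f)).card ≤
      ∑ z ∈ C, (6 - (dirs C z).card) := by
  classical
  calc ∑ F ∈ frames C, ∑ f ∈ F, ((cls C F).image (proj f)).card
      ≤ ∑ F ∈ frames C, (miss C F).card :=
        Finset.sum_le_sum fun F _ => by convert sum_proj_le_miss C F
    _ = ((frames C).biUnion (miss C)).card := by
        rw [Finset.card_biUnion]
        intro F _ G _ hFG
        exact miss_disjoint hS hFG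
    _ = ∑ z ∈ C, (((frames C).biUnion (miss C)).filter fun p => p.1 = z).card := by
        apply Finset.card_eq_sum_card_fiberwise
        intro p hp
        have hp' : p ∈ (frames C).biUnion (miss C) := hp
        rw [Finset.mem_biUnion] at hp'
        obtain ⟨F, _, hp'⟩ := hp'
        unfold miss at hp'
        rw [Finset.mem_filter, Finset.mem_product] at hp'
        exact hp'.1.1
    _ ≤ _ := Finset.sum_le_sum fun z hz => by convert fiber_miss_le hS hz

end Pool.Agent.H62.Sep
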