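import Mathlib

/-!
Finite sets of nonzero vectors with pairwise nonpositive inner products.
-/

open Module

namespace Pool.Agent.H62.Sep

/-- One step: removing the vectors on the line of `u ∈ s` leaves at most `2 n` vectors if the
ambient space has dimension `n + 1`, given the bound in dimension `n`. -/
lemma nonacute_step {n : ℕ}
    (ih : ∀ (W : Type) [NormedAddCommGroup W] [InnerProductSpace ℝ W] [FiniteDimensional ℝ W],
      finrank ℝ W = n → ∀ s : Finset W, (∀ v ∈ s, v ≠ 0) →
      (∀ v ∈ s, ∀ w ∈ s, v ≠ w → inner ℝ v w ≤ 0) → s.card ≤ 2 * n)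
    (V : Type) [NormedAddCommGroup V] [InnerProductSpace ℝ V] [FiniteDimensional ℝ V]
    (hV : finrank ℝ V = n + 1) (s : Finset V) (hs0 : ∀ v ∈ s, v ≠ 0)
    (hs : ∀ v ∈ s, ∀ w ∈ s, v ≠ w → inner ℝ v w ≤ 0) (u : V) (hu : u ∈ s)
    [DecidablePred fun v : V => v ∈ Submodule.span ℝ {u}] :
    (s.filter fun v => ¬ v ∈ Submodule.span ℝ {u}).card ≤ 2 * n := by
  classical
  have : Fact (finrank ℝ V = n + 1) := ⟨hV⟩
  set K : Submodule ℝ V := (Submodule.span ℝ {u})ᗮ with hK
  have hKn : finrank ℝ K = n := Submodule.finrank_orthogonal_span_singleton (hs0 u hu)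
  set P : V → K := fun v => K.orthogonalProjectionOnto v with hP
  set t := s.filter fun v => ¬ v ∈ Submodule.span ℝ {u} with ht
  have hu0 := hs0 u hu
  have hun : 0 < ‖u‖ ^ 2 := by positivity
  have hPv : ∀ v : V, (P v : V) = v - (inner ℝ u v / ‖u‖ ^ 2) • u := by
    intro v
    have h1 : (P v : V) = v - (Submodule.span ℝ {u}).starProjection v := by
      have := Submodule.starProjection_add_starProjection_orthogonal (K := Submodule.span ℝ {u}) v
      have h2 : (P v : V) = (Submodule.span ℝ {u})ᗮ.starProjection v := rfl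
      rw [h2]
      exact eq_sub_of_add_eq' this
    rw [h1, Submodule.starProjection_singleton]
    simp
  have hinner : ∀ v w : V, inner ℝ (P v) (P w) =
      inner ℝ v w - inner ℝ u v * inner ℝ u w / ‖u‖ ^ 2 := by
    intro v w
    rw [Submodule.coe_inner, hPv, hPv]
    simp only [inner_sub_left, inner_sub_right, inner_smul_left, inner_smul_right,
      real_inner_self_eq_norm_sq, RCLike.conj_to_real]
    rw [real_inner_comm u v]
    field_simp
    ring
  have hP0 : ∀ v ∈ t, P v ≠ 0 := by
    intro v hv h0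
    rw [ht, Finset.mem_filter] at hv
    apply hv.2
    have h1 := hPv v
    rw [h0] at h1
    have h2 : v = (inner ℝ u v / ‖u‖ ^ 2) • u := by
      have : (0 : V) = v - (inner ℝ u v / ‖u‖ ^ 2) • u := by simpa using h1
      exact (sub_eq_zero.mp this.symm)
    rw [h2]
    exact Submodule.smul_mem _ _ (Submodule.mem_span_singleton_self u)
  have hneu : ∀ v ∈ t, v ≠ u := by
    intro v hv h0
    rw [ht, Finset.mem_filter] at hv
    apply hv.2
    rw [h0]
    exact Submodule.mem_span_singleton_self u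
  have hle : ∀ v ∈ t, ∀ w ∈ t, v ≠ w → inner ℝ (P v) (P w) ≤ 0 := by
    intro v hv w hw hvw
    have hvs : v ∈ s := (Finset.mem_filter.mp hv).1
    have hws : w ∈ s := (Finset.mem_filter.mp hw).1
    rw [hinner]
    have h1 := hs v hvs w hws hvw
    have h2 := hs u hu v hvs (hneu v hv).symm
    have h3 := hs u hu w hws (hneu w hw).symm
    have h4 : 0 ≤ inner ℝ u v * inner ℝ u w := mul_nonneg_of_nonpos_of_nonpos h2 h3
    have h5 : 0 ≤ inner ℝ u v * inner ℝ u w / ‖u‖ ^ 2 := by positivity
    linarith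
  have hinj : Set.InjOn P t := by
    intro v hv w hw hvw
    by_contra hne
    have h1 := hle v hv w hw hne
    rw [← hvw, real_inner_self_eq_norm_sq] at h1
    have h2 : P v ≠ 0 := hP0 v hv
    have h3 : 0 < ‖P v‖ ^ 2 := by positivity
    linarith
  rw [← Finset.card_image_of_injOn hinj]
  apply ih K hKn
  · intro v hv
    rw [Finset.mem_image] at hv
    obtain ⟨w, hw, rfl⟩ := hv
    exact hP0 w hw
  · intro v hv w hw hvw
    rw [Finset.mem_image] at hv hw
    obtain ⟨v', hv', rfl⟩ := hv
    obtain ⟨w', hw', rfl⟩ := hw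
    exact hle v' hv' w' hw' (fun h => hvw (by rw [h]))

/-- In a set of vectors with pairwise nonpositive inner products at most two lie on a line. -/
lemma nonacute_line {V : Type} [NormedAddCommGroup V] [InnerProductSpace ℝ V]
    (s : Finset V) (hs0 : ∀ v ∈ s, v ≠ 0)
    (hs : ∀ v ∈ s, ∀ w ∈ s, v ≠ w → inner ℝ v w ≤ 0) (u : V) (hu : u ∈ s)
    [DecidableEq V]
    [DecidablePred fun v : V => v ∈ Submodule.span ℝ {u}] :
    ((s.filter fun v => v ∈ Submodule.span ℝ {u}).erase u).card ≤ 1 := by
  rw [Finset.card_le_one]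
  intro v hv w hw
  by_contra hne
  rw [Finset.mem_erase, Finset.mem_filter] at hv hw
  obtain ⟨hvu, hvs, hvl⟩ := hv
  obtain ⟨hwu, hws, hwl⟩ := hw
  obtain ⟨a, rfl⟩ := Submodule.mem_span_singleton.mp hvl
  obtain ⟨b, rfl⟩ := Submodule.mem_span_singleton.mp hwl
  have hu0 := hs0 u hu
  have hun : 0 < ‖u‖ ^ 2 := by positivity
  have ha0 : a ≠ 0 := by
    rintro rfl
    exact hs0 _ hvs (zero_smul _ _)
  have hb0 : b ≠ 0 := by
    rintro rfl
    exact hs0 _ hws (zero_smul _ _)
  have h1 := hs _ hvs u hu hvu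
  have h2 := hs _ hws u hu hwu
  have h3 := hs _ hvs _ hws hne
  rw [inner_smul_left, real_inner_self_eq_norm_sq, RCLike.conj_to_real] at h1 h2
  rw [inner_smul_left, inner_smul_right, real_inner_self_eq_norm_sq, RCLike.conj_to_real] at h3
  have ha : a < 0 := by
    by_contra hcon
    push Not at hcon
    have : 0 < a := lt_of_le_of_ne hcon ha0.symm
    have := mul_pos this hun
    linarith
  have hb : b < 0 := by
    by_contra hcon
    push Not at hcon
    have : 0 < b := lt_of_le_of_ne hcon hb0.symm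
    have := mul_pos this hun
    linarith
  have : 0 < a * (b * ‖u‖ ^ 2) := by
    rw [← mul_assoc]
    exact mul_pos (mul_pos_of_neg_of_neg ha hb) hun
  linarith

theorem nonacute_card_le (n : ℕ) :
    ∀ (V : Type) [NormedAddCommGroup V] [InnerProductSpace ℝ V] [FiniteDimensional ℝ V],
      finrank ℝ V = n → ∀ s : Finset V, (∀ v ∈ s, v ≠ 0) →
      (∀ v ∈ s, ∀ w ∈ s, v ≠ w → inner ℝ v w ≤ 0) → s.card ≤ 2 * n := by
  classical
  induction n with
  | zero =>
    intro V _ _ _ hV s hs0 hs
    have : Subsingleton V := finrank_zero_iff.mp hV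
    have : s = ∅ := by
      rw [Finset.eq_empty_iff_forall_notMem]
      intro v hv
      exact hs0 v hv (Subsingleton.elim _ _)
    simp [this]
  | succ n ih =>
    intro V _ _ _ hV s hs0 hs
    rcases s.eq_empty_or_nonempty with rfl | ⟨u, hu⟩
    · simp
    · have h1 := nonacute_step ih V hV s hs0 hs u hu
      have h2 := nonacute_line s hs0 hs u hu
      have h3 := Finset.card_filter_add_card_filter_not (s := s)
        (fun v => v ∈ Submodule.span ℝ {u})
      have h4 : u ∈ s.filter fun v => v ∈ Submodule.span ℝ {u} :=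
        Finset.mem_filter.mpr ⟨hu, Submodule.mem_span_singleton_self u⟩
      rw [Finset.card_erase_of_mem h4] at h2
      omega

/-- Equality case for unit vectors: if there are `2 (n + 1)` of them in dimension `n + 1`,
the set is symmetric. -/
theorem nonacute_neg_mem {n : ℕ}
    (V : Type) [NormedAddCommGroup V] [InnerProductSpace ℝ V] [FiniteDimensional ℝ V]
    (hV : finrank ℝ V = n + 1) (s : Finset V) (hs1 : ∀ v ∈ s, ‖v‖ = 1)
    (hs : ∀ v ∈ s, ∀ w ∈ s, v ≠ w → inner ℝ v w ≤ 0) (hcard : s.card = 2 * (n + 1))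
    (u : V) (hu : u ∈ s) : -u ∈ s := by
  classical
  have hs0 : ∀ v ∈ s, v ≠ 0 := by
    rintro v hv rfl
    have := hs1 _ hv
    simp at this
  have h1 := nonacute_step (nonacute_card_le n) V hV s hs0 hs u hu
  have h3 := Finset.card_filter_add_card_filter_not (s := s)
    (fun v => v ∈ Submodule.span ℝ {u})
  have h4 : u ∈ s.filter fun v => v ∈ Submodule.span ℝ {u} :=
    Finset.mem_filter.mpr ⟨hu, Submodule.mem_span_singleton_self u⟩
  have h5 : 0 < ((s.filter fun v => v ∈ Submodule.span ℝ {u}).erase u).card := by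
    rw [Finset.card_erase_of_mem h4]
    omega
  obtain ⟨v, hv⟩ := Finset.card_pos.mp h5
  rw [Finset.mem_erase, Finset.mem_filter] at hv
  obtain ⟨hvu, hvs, hvl⟩ := hv
  obtain ⟨a, rfl⟩ := Submodule.mem_span_singleton.mp hvl
  have h6 := hs1 _ hvs
  rw [norm_smul, hs1 u hu, mul_one, Real.norm_eq_abs] at h6
  rcases (abs_eq (by norm_num)).mp h6 with h7 | h7
  · exact absurd (by rw [h7, one_smul]) hvu
  · rw [h7] at hvs
    simpa using hvs

end Pool.Agent.H62.Sep
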