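import Pool.Agent.H62.Sep.Geom
import Pool.Agent.H62.Sep.NonAcute

open Metric Module

namespace Pool.Agent.H62.Sep

/-- contact directions at `a` -/
noncomputable def dirs (C : Finset E3) (a : E3) : Finset E3 := by
  classical
  exact (C.filter fun b => dist a b = 1).image fun b => b - a

lemma mem_dirs {C : Finset E3} {a u : E3} : u ∈ dirs C a ↔ a + u ∈ C ∧ ‖u‖ = 1 := by
  classical
  unfold dirs
  simp only [Finset.mem_image, Finset.mem_filter]
  constructor
  · rintro ⟨b, ⟨hb, hd⟩, rfl⟩
    refine ⟨by simpa using hb, ?_⟩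
    rw [← dist_eq_norm, dist_comm]; exact hd
  · rintro ⟨h1, h2⟩
    refine ⟨a + u, ⟨h1, ?_⟩, by simp⟩
    rw [dist_eq_norm]; simpa using h2

lemma dirs_nonacute {C : Finset E3} (hS : Star C) {a : E3} (ha : a ∈ C) :
    ∀ u ∈ dirs C a, ∀ v ∈ dirs C a, u ≠ v → inner ℝ u v ≤ 0 := by
  intro u hu v hv huv
  rw [mem_dirs] at hu hv
  have h1 := hS a ha (a + u) hu.1 (by rw [dist_eq_norm]; simpa using hu.2) (a + v) hv.1
  simp only [add_sub_cancel_left] at h1
  rcases h1 with h | h
  · exact h
  · exfalso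
    apply huv
    have h2 : inner ℝ u v = ‖u‖ * ‖v‖ := by
      apply le_antisymm (real_inner_le_norm _ _)
      rw [hu.2, hv.2]; simpa using h
    have h3 := inner_eq_norm_mul_iff_real.mp h2
    rw [hu.2, hv.2] at h3
    simpa using h3

lemma finrank_E3 : finrank ℝ E3 = 3 := by simp [E3]

lemma dirs_card_le {C : Finset E3} (hS : Star C) {a : E3} (ha : a ∈ C) :
    (dirs C a).card ≤ 6 := by
  apply nonacute_card_le 3 E3 finrank_E3 (dirs C a)
  · rintro v hv rfl
    rw [mem_dirs] at hv
    simp at hv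
  · exact dirs_nonacute hS ha

lemma dirs_neg {C : Finset E3} (hS : Star C) {a : E3} (ha : a ∈ C) (h6 : (dirs C a).card = 6)
    {u : E3} (hu : u ∈ dirs C a) : -u ∈ dirs C a := by
  apply nonacute_neg_mem (n := 2) E3 finrank_E3 (dirs C a) ?_ (dirs_nonacute hS ha) h6 u hu
  intro v hv
  exact (mem_dirs.mp hv).2

lemma dirs_orth {C : Finset E3} (hS : Star C) {a : E3} (ha : a ∈ C) (h6 : (dirs C a).card = 6)
    {u v : E3} (hu : u ∈ dirs C a) (hv : v ∈ dirs C a) (h1 : u ≠ v) (h2 : -u ≠ v) :
    inner ℝ u v = 0 := by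
  have h3 := dirs_nonacute hS ha u hu v hv h1
  have h4 := dirs_nonacute hS ha (-u) (dirs_neg hS ha h6 hu) v hv h2
  rw [inner_neg_left] at h4
  linarith

/-- a ball with six contacts: the contact directions are an orthonormal cross -/
lemma exists_basis {C : Finset E3} (hS : Star C) {a : E3} (ha : a ∈ C)
    (h6 : (dirs C a).card = 6) :
    ∃ e : OrthonormalBasis (Fin 3) ℝ E3,
      ∀ u : E3, u ∈ dirs C a ↔ ∃ i, u = e i ∨ u = -e i := by
  classical
  set F := dirs C a with hF
  have hn : ∀ u ∈ F, ‖u‖ = 1 := fun u hu => (mem_dirs.mp hu).2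
  have hneg : ∀ u ∈ F, -u ∈ F := fun u hu => dirs_neg hS ha h6 hu
  have horth : ∀ u ∈ F, ∀ v ∈ F, u ≠ v → -u ≠ v → inner ℝ u v = 0 :=
    fun u hu v hv h1 h2 => dirs_orth hS ha h6 hu hv h1 h2
  have hune : ∀ u ∈ F, u ≠ -u := by
    intro u hu h
    have h0 : u = 0 := by
      have : (2 : ℝ) • u = 0 := by
        rw [two_smul]; nth_rewrite 2 [h]; simp
      simpa using this
    have := hn u hu
    rw [h0] at this
    simp at this
  have hpick : ∀ G : Finset E3, (∀ u ∈ G, -u ∈ G) → G ⊆ F → ∀ u ∈ G,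
      ((G.erase u).erase (-u)).card + 2 = G.card ∧
      (∀ v ∈ (G.erase u).erase (-u), -v ∈ (G.erase u).erase (-u)) := by
    intro G hG hGF u hu
    have hnu : -u ∈ G.erase u :=
      Finset.mem_erase.mpr ⟨fun h => hune u (hGF hu) h.symm, hG u hu⟩
    constructor
    · rw [Finset.card_erase_of_mem hnu, Finset.card_erase_of_mem hu]
      have h1 : 0 < (G.erase u).card := Finset.card_pos.mpr ⟨_, hnu⟩
      rw [Finset.card_erase_of_mem hu] at h1
      omega
    · intro v hv
      rw [Finset.mem_erase, Finset.mem_erase] at hv ⊢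
      refine ⟨fun h => hv.2.1 (neg_injective h), fun h => hv.1 ?_, hG v hv.2.2⟩
      rw [← h]; simp
  have h6F : F.card = 6 := h6
  have hne : F.Nonempty := by rw [← Finset.card_pos, h6F]; norm_num
  obtain ⟨e1, he1⟩ := hne
  obtain ⟨hc1, hs1⟩ := hpick F hneg (Finset.Subset.refl F) e1 he1
  set F1 := (F.erase e1).erase (-e1) with hF1
  have hF1s : F1 ⊆ F := (Finset.erase_subset _ _).trans (Finset.erase_subset _ _)
  have hne1 : F1.Nonempty := by rw [← Finset.card_pos]; omega
  obtain ⟨e2, he2⟩ := hne1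
  obtain ⟨hc2, hs2⟩ := hpick F1 hs1 hF1s e2 he2
  set F2 := (F1.erase e2).erase (-e2) with hF2
  have hF2s : F2 ⊆ F1 := (Finset.erase_subset _ _).trans (Finset.erase_subset _ _)
  have hne2 : F2.Nonempty := by rw [← Finset.card_pos]; omega
  obtain ⟨e3, he3⟩ := hne2
  obtain ⟨hc3, hs3⟩ := hpick F2 hs2 (hF2s.trans hF1s) e3 he3
  set F3 := (F2.erase e3).erase (-e3) with hF3
  have hF3e : F3 = ∅ := by rw [← Finset.card_eq_zero]; omega
  have he2F : e2 ∈ F := hF1s he2
  have he3F : e3 ∈ F := hF1s (hF2s he3)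
  have h12 : inner ℝ e1 e2 = 0 := by
    rw [hF1, Finset.mem_erase, Finset.mem_erase] at he2
    exact horth e1 he1 e2 he2F (fun h => he2.2.1 h.symm) (fun h => he2.1 h.symm)
  have he3' : e3 ∈ F1 := hF2s he3
  have h13 : inner ℝ e1 e3 = 0 := by
    rw [hF1, Finset.mem_erase, Finset.mem_erase] at he3'
    exact horth e1 he1 e3 he3F (fun h => he3'.2.1 h.symm) (fun h => he3'.1 h.symm)
  have h23 : inner ℝ e2 e3 = 0 := by
    rw [hF2, Finset.mem_erase, Finset.mem_erase] at he3
    exact horth e2 he2F e3 he3F (fun h => he3.2.1 h.symm) (fun h => he3.1 h.symm)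
  have hon : Orthonormal ℝ ![e1, e2, e3] := by
    rw [orthonormal_iff_ite]
    intro i j
    fin_cases i <;> fin_cases j <;>
      simp [h12, h13, h23, real_inner_comm, hn e1 he1, hn e2 he2F, hn e3 he3F]
  have hon' : Orthonormal ℝ ((Set.univ : Set (Fin 3)).domRestrict ![e1, e2, e3]) :=
    hon.comp _ Subtype.val_injective
  obtain ⟨b, hb⟩ := hon'.exists_orthonormalBasis_extension_of_card_eq (by simp)
  refine ⟨b, fun u => ?_⟩
  have hb0 : b 0 = e1 := by simpa using hb 0 (Set.mem_univ _)
  have hb1 : b 1 = e2 := by simpa using hb 1 (Set.mem_univ _)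
  have hb2 : b 2 = e3 := by simpa using hb 2 (Set.mem_univ _)
  constructor
  · intro hu
    by_contra hcon
    push Not at hcon
    have h0 := hcon 0
    have h1 := hcon 1
    have h2 := hcon 2
    rw [hb0] at h0
    rw [hb1] at h1
    rw [hb2] at h2
    have : u ∈ F3 := by
      rw [hF3, hF2, hF1]
      simp only [Finset.mem_erase]
      exact ⟨h2.2, h2.1, h1.2, h1.1, h0.2, h0.1, hu⟩
    rw [hF3e] at this
    simp at this
  · rintro ⟨i, hi⟩
    have hbi : b i ∈ F := by
      fin_cases i
      · simpa [hb0] using he1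
      · simpa [hb1] using he2F
      · simpa [hb2] using he3F
    rcases hi with rfl | rfl
    · exact hbi
    · exact hneg _ hbi

/-- If `a` has six contacts, all balls centred on a line through `a` in one of its contact
directions only have contacts in the contact directions of `a`. -/
lemma dirs_subset_of_line {C : Finset E3} (hS : Star C) {a : E3} (ha : a ∈ C)
    (h6 : (dirs C a).card = 6) {f : E3} (hf : f ∈ dirs C a) {s : ℝ}
    (hc : a + s • f ∈ C) : dirs C (a + s • f) ⊆ dirs C a := by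
  obtain ⟨e, he⟩ := exists_basis hS ha h6
  obtain ⟨i, hi⟩ := (he f).mp hf
  intro g hg
  by_contra hga
  rw [mem_dirs] at hg
  have key : ∀ h ∈ dirs C a, inner ℝ h f = 0 → inner ℝ h g ≤ 0 := by
    intro h hh hhf
    have hh' := mem_dirs.mp hh
    have h1 := hS a ha (a + h) hh'.1 (by rw [dist_eq_norm]; simpa using hh'.2) _ hg.1
    have h2 : inner ℝ (a + h - a) (a + s • f + g - a) = inner ℝ h g := by
      have : a + s • f + g - a = s • f + g := by abel
      rw [this, add_sub_cancel_left, inner_add_right, inner_smul_right, hhf]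
      ring
    rw [h2] at h1
    rcases h1 with h0 | h0
    · exact h0
    · exfalso
      apply hga
      have h3 : inner ℝ h g = ‖h‖ * ‖g‖ := by
        apply le_antisymm (real_inner_le_norm _ _)
        rw [hh'.2, hg.2]; simpa using h0
      have h4 := inner_eq_norm_mul_iff_real.mp h3
      rw [hh'.2, hg.2, one_smul, one_smul] at h4
      rw [← h4]; exact hh
  have key2 : ∀ j, j ≠ i → inner ℝ (e j) g = 0 := by
    intro j hj
    have hjf : inner ℝ (e j) f = 0 := by
      rcases hi with rfl | rfl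
      · exact e.orthonormal.2 hj
      · rw [inner_neg_right, e.orthonormal.2 hj, neg_zero]
    have h1 := key (e j) ((he _).mpr ⟨j, Or.inl rfl⟩) hjf
    have h2 := key (-e j) ((he _).mpr ⟨j, Or.inr rfl⟩) (by rw [inner_neg_left, hjf, neg_zero])
    rw [inner_neg_left] at h2
    linarith
  have h3 : g = (inner ℝ (e i) g : ℝ) • e i := by
    conv_lhs => rw [← e.sum_repr' g]
    rw [Finset.sum_eq_single i]
    · intro j _ hj
      rw [key2 j hj, zero_smul]
    · simp
  have h4 : |(inner ℝ (e i) g : ℝ)| = 1 := by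
    have := hg.2
    rw [h3, norm_smul, e.norm_eq_one, mul_one, Real.norm_eq_abs] at this
    exact this
  apply hga
  rw [he]
  refine ⟨i, ?_⟩
  rcases (abs_eq (by norm_num)).mp h4 with h5 | h5
  · left; rw [h3, h5, one_smul]
  · right; rw [h3, h5, neg_smul, one_smul]

end Pool.Agent.H62.Sep
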