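import Mathlib

/-!
Definitions for totally separable packings of balls of diameter one in Euclidean 3-space.
-/

open Metric

namespace Pool.Agent.H62.Sep

/-- Euclidean 3-space. -/
abbrev E3 := EuclideanSpace ℝ (Fin 3)

/-- The balls of diameter `1` centred at the points of `C` form a packing: any two of them have
disjoint interiors. -/
def IsUnitPacking (C : Finset E3) : Prop :=
  ∀ a ∈ C, ∀ b ∈ C, a ≠ b → Disjoint (ball a (1 / 2)) (ball b (1 / 2))

/-- The balls of diameter `1` centred at the points of `C` form a totally separable packing:
they form a packing, and for any two of them there is a plane `{x | ⟪u, x⟫ = t}` separating them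
(one ball in each of the two closed half-spaces) that is disjoint from the interior of every ball
of the packing. -/
def IsTotallySeparable (C : Finset E3) : Prop :=
  IsUnitPacking C ∧
    ∀ a ∈ C, ∀ b ∈ C, a ≠ b →
      ∃ (u : E3) (t : ℝ), u ≠ 0 ∧
        (∀ x ∈ closedBall a (1 / 2), inner ℝ u x ≤ t) ∧
        (∀ x ∈ closedBall b (1 / 2), t ≤ inner ℝ u x) ∧
        ∀ c ∈ C, Disjoint {x : E3 | inner ℝ u x = t} (ball c (1 / 2))

/-- The contact graph: two distinct centres in `C` are joined when the closed balls of diameter `1`
around them touch (have a common point). -/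
def contactGraph (C : Finset E3) : SimpleGraph E3 where
  Adj a b := a ∈ C ∧ b ∈ C ∧ a ≠ b ∧ (closedBall a (1 / 2) ∩ closedBall b (1 / 2)).Nonempty
  symm := ⟨fun _ _ h => ⟨h.2.1, h.1, h.2.2.1.symm, by rw [Set.inter_comm]; exact h.2.2.2⟩⟩
  loopless := ⟨fun _ h => h.2.2.1 rfl⟩

/-- The contact number: the number of edges of the contact graph. -/
noncomputable def contactNumber (C : Finset E3) : ℕ := (contactGraph C).edgeSet.ncard

/-- `csep n` is the largest contact number of a totally separable packing of `n` balls of
diameter `1` in Euclidean 3-space. -/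
noncomputable def csep (n : ℕ) : ℕ :=
  sSup {k : ℕ | ∃ C : Finset E3, C.card = n ∧ IsTotallySeparable C ∧ contactNumber C = k}

end Pool.Agent.H62.Sep
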