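import Pool.Agent.H62.Sep.Contacts

open Metric Module

namespace Pool.Agent.H62.Sep

/-- all coordinates of all centres are integers -/
def IsDigital (C : Finset E3) : Prop := ∀ c ∈ C, ∀ i, ∃ z : ℤ, c i = z

lemma abs_coord_le (x : E3) (i : Fin 3) : |x i| ≤ ‖x‖ := by
  have := PiLp.norm_apply_le x i
  simpa using this

lemma IsDigital.isUnitPacking {C : Finset E3} (h : IsDigital C) : IsUnitPacking C := by
  intro a ha b hb hab
  rw [disjoint_ball_ball_iff (by norm_num) (by norm_num)]
  have : ∃ i, a i ≠ b i := by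
    by_contra hcon
    push Not at hcon
    exact hab (by ext i; exact hcon i)
  obtain ⟨i, hi⟩ := this
  obtain ⟨x, hx⟩ := h a ha i
  obtain ⟨y, hy⟩ := h b hb i
  have h1 : |(a - b) i| ≤ ‖a - b‖ := abs_coord_le _ _
  rw [PiLp.sub_apply, hx, hy] at h1
  rw [hx, hy] at hi
  have hxy : x ≠ y := fun h => hi (by rw [h])
  have h2 : 1 ≤ |x - y| := Int.one_le_abs (sub_ne_zero.mpr hxy)
  have h3 : (1 : ℝ) ≤ |(x : ℝ) - y| := by exact_mod_cast h2
  rw [dist_eq_norm]
  linarith

lemma IsDigital.isTotallySeparable {C : Finset E3} (h : IsDigital C) : IsTotallySeparable C := by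
  refine ⟨h.isUnitPacking, ?_⟩
  intro a ha b hb hab
  have : ∃ i, a i ≠ b i := by
    by_contra hcon
    push Not at hcon
    exact hab (by ext i; exact hcon i)
  obtain ⟨i, hi⟩ := this
  obtain ⟨x, hx⟩ := h a ha i
  obtain ⟨y, hy⟩ := h b hb i
  have hs : ∀ z : E3, inner ℝ (EuclideanSpace.single i (1 : ℝ)) z = z i := by
    intro z
    simp [EuclideanSpace.inner_single_left]
  have hne : EuclideanSpace.single i (1 : ℝ) ≠ (0 : E3) := by
    intro h0
    have := congrArg (fun v : E3 => v i) h0
    simp at this
  have hxy : x ≠ y := by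
    rintro rfl
    exact hi (by rw [hx, hy])
  rcases lt_or_gt_of_ne hxy with hlt | hlt
  · have hlt' : (x : ℝ) + 1 ≤ y := by exact_mod_cast hlt
    refine ⟨EuclideanSpace.single i 1, (x : ℝ) + 1 / 2, hne, ?_, ?_, ?_⟩
    · intro z hz
      rw [hs]
      rw [mem_closedBall, dist_eq_norm] at hz
      have := abs_coord_le (z - a) i
      rw [PiLp.sub_apply, hx] at this
      have := (abs_le.mp (this.trans hz)).2
      linarith
    · intro z hz
      rw [hs]
      rw [mem_closedBall, dist_eq_norm] at hz
      have := abs_coord_le (z - b) i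
      rw [PiLp.sub_apply, hy] at this
      have := (abs_le.mp (this.trans hz)).1
      linarith
    · intro c hc
      rw [Set.disjoint_left]
      intro z hz1 hz2
      rw [Set.mem_ofPred_eq, hs] at hz1
      rw [mem_ball, dist_eq_norm] at hz2
      obtain ⟨w, hw⟩ := h c hc i
      have := abs_coord_le (z - c) i
      rw [PiLp.sub_apply, hw, hz1] at this
      have h4 := abs_lt.mp (this.trans_lt hz2)
      have h5 : (w : ℝ) < x + 1 := by linarith
      have h6 : (x : ℝ) < w := by linarith
      have h7 : w < x + 1 := by exact_mod_cast h5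
      have h8 : x < w := by exact_mod_cast h6
      omega
  · have hlt' : (y : ℝ) + 1 ≤ x := by exact_mod_cast hlt
    refine ⟨-EuclideanSpace.single i 1, -(x : ℝ) + 1 / 2, neg_ne_zero.mpr hne, ?_, ?_, ?_⟩
    · intro z hz
      rw [inner_neg_left, hs]
      rw [mem_closedBall, dist_eq_norm] at hz
      have := abs_coord_le (z - a) i
      rw [PiLp.sub_apply, hx] at this
      have := (abs_le.mp (this.trans hz)).1
      linarith
    · intro z hz
      rw [inner_neg_left, hs]
      rw [mem_closedBall, dist_eq_norm] at hz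
      have := abs_coord_le (z - b) i
      rw [PiLp.sub_apply, hy] at this
      have := (abs_le.mp (this.trans hz)).2
      linarith
    · intro c hc
      rw [Set.disjoint_left]
      intro z hz1 hz2
      rw [Set.mem_ofPred_eq, inner_neg_left, hs] at hz1
      rw [mem_ball, dist_eq_norm] at hz2
      obtain ⟨w, hw⟩ := h c hc i
      have := abs_coord_le (z - c) i
      rw [PiLp.sub_apply, hw] at this
      have h4 := abs_lt.mp (this.trans_lt hz2)
      have h5 : (w : ℝ) < x := by linarith
      have h6 : (x : ℝ) < w + 1 := by linarith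
      have h7 : w < x := by exact_mod_cast h5
      have h8 : x < w + 1 := by exact_mod_cast h6
      omega

/-- the `k`-th point of an infinite column of `m × m` layers -/
noncomputable def pt (m k : ℕ) : E3 :=
  !₂[((k % m : ℕ) : ℝ), ((k / m % m : ℕ) : ℝ), ((k / m / m : ℕ) : ℝ)]

lemma pt_injective {m : ℕ} : Function.Injective (pt m) := by
  intro k l hkl
  have h0 := congrArg (fun v : E3 => v 0) hkl
  have h1 := congrArg (fun v : E3 => v 1) hkl
  have h2 := congrArg (fun v : E3 => v 2) hkl
  simp only [pt] at h0 h1 h2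
  simp at h0 h1 h2
  have h3 : k / m = l / m := by
    rw [← Nat.div_add_mod (k / m) m, ← Nat.div_add_mod (l / m) m, h1, h2]
  rw [← Nat.div_add_mod k m, ← Nat.div_add_mod l m, h0, h3]

open scoped Classical in
/-- the first `n` points of the column -/
noncomputable def box (m n : ℕ) : Finset E3 := (Finset.range n).image (pt m)

lemma box_card (m n : ℕ) : (box m n).card = n := by
  classical
  unfold box
  rw [Finset.card_image_of_injective _ pt_injective, Finset.card_range]

lemma box_digital (m n : ℕ) : IsDigital (box m n) := by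
  classical
  intro c hc i
  unfold box at hc
  rw [Finset.mem_image] at hc
  obtain ⟨k, _, rfl⟩ := hc
  fin_cases i
  · exact ⟨((k % m : ℕ) : ℤ), by rw [Int.cast_natCast]; rfl⟩
  · exact ⟨((k / m % m : ℕ) : ℤ), by rw [Int.cast_natCast]; rfl⟩
  · exact ⟨((k / m / m : ℕ) : ℤ), by rw [Int.cast_natCast]; rfl⟩

lemma dist_pt (m k l : ℕ) : dist (pt m k) (pt m l) =
    Real.sqrt ((((k % m : ℕ) : ℝ) - ((l % m : ℕ) : ℝ)) ^ 2 +
      (((k / m % m : ℕ) : ℝ) - ((l / m % m : ℕ) : ℝ)) ^ 2 +
      (((k / m / m : ℕ) : ℝ) - ((l / m / m : ℕ) : ℝ)) ^ 2) := by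
  rw [EuclideanSpace.dist_eq, Fin.sum_univ_three]
  simp [pt, Real.dist_eq, sq_abs]

lemma dist_pt_one {m k : ℕ} (h : k % m + 1 < m) : dist (pt m k) (pt m (k + 1)) = 1 := by
  have hm : 0 < m := by omega
  have h1 : (k + 1) % m = k % m + 1 := by
    rw [Nat.add_mod, Nat.mod_eq_of_lt (a := 1) (by omega), Nat.mod_eq_of_lt h]
  have h2 : (k + 1) / m = k / m := by
    apply Nat.div_eq_of_lt_le
    · have := Nat.div_mul_le_self k m
      omega
    · have h3 := Nat.div_add_mod k m
      rw [add_mul, one_mul, mul_comm]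
      omega
  rw [dist_pt, h1, h2]
  simp

lemma dist_pt_two {m k : ℕ} (h : k / m % m + 1 < m) : dist (pt m k) (pt m (k + m)) = 1 := by
  have hm : 0 < m := by omega
  have h0 : (k + m) / m = k / m + 1 := Nat.add_div_right k hm
  have h1 : (k / m + 1) % m = k / m % m + 1 := by
    rw [Nat.add_mod, Nat.mod_eq_of_lt (a := 1) (by omega), Nat.mod_eq_of_lt h]
  have h2 : (k / m + 1) / m = k / m / m := by
    apply Nat.div_eq_of_lt_le
    · have := Nat.div_mul_le_self (k / m) m
      omega
    · have h3 := Nat.div_add_mod (k / m) m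
      rw [add_mul, one_mul, mul_comm]
      omega
  rw [dist_pt, h0, h1, h2, Nat.add_mod_right]
  simp

lemma dist_pt_three {m k : ℕ} (hm : 0 < m) : dist (pt m k) (pt m (k + m * m)) = 1 := by
  have h0 : (k + m * m) / m = k / m + m := Nat.add_mul_div_left k m hm
  rw [dist_pt, h0, Nat.add_mod_right, Nat.add_div_right _ hm, Nat.add_mul_mod_self_left]
  simp

/-- lower bound for the number of contacts of the `n` first points of the column -/
lemma box_contacts {m n : ℕ} (hm : 2 ≤ m) :
    3 * (n : ℝ) - (m : ℝ) ^ 2 - m - 1 - 2 * ((n : ℝ) / m) ≤ contactNumber (box m n) := by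
  classical
  have hP := (box_digital m n).isUnitPacking
  set A1 := (Finset.range (n - 1)).filter fun k => k % m + 1 < m with hA1
  set A2 := (Finset.range (n - m)).filter fun k => k / m % m + 1 < m with hA2
  set A3 := Finset.range (n - m * m) with hA3
  set E1 : Finset (ℕ × ℕ) := A1.image fun k => (k, k + 1) with hE1
  set E2 : Finset (ℕ × ℕ) := A2.image fun k => (k, k + m) with hE2
  set E3' : Finset (ℕ × ℕ) := A3.image fun k => (k, k + m * m) with hE3
  have hmm : m < m * m := by nlinarith
  have hd12 : Disjoint E1 E2 := by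
    rw [Finset.disjoint_left]
    rintro ⟨k, l⟩ h1 h2
    simp only [hE1, hE2, Finset.mem_image, Prod.mk.injEq] at h1 h2
    obtain ⟨_, _, rfl, h1⟩ := h1
    obtain ⟨_, _, rfl, h2⟩ := h2
    omega
  have hd123 : Disjoint (E1 ∪ E2) E3' := by
    rw [Finset.disjoint_left]
    rintro ⟨k, l⟩ h1 h2
    simp only [hE1, hE2, hE3, Finset.mem_union, Finset.mem_image, Prod.mk.injEq] at h1 h2
    obtain ⟨_, _, rfl, h2⟩ := h2
    rcases h1 with ⟨_, _, rfl, h1⟩ | ⟨_, _, rfl, h1⟩ <;> omega
  have hc1 : E1.card = A1.card := Finset.card_image_of_injective _ fun a b h => by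
    simpa using (Prod.mk.inj h).1
  have hc2 : E2.card = A2.card := Finset.card_image_of_injective _ fun a b h => by
    simpa using (Prod.mk.inj h).1
  have hc3 : E3'.card = A3.card := Finset.card_image_of_injective _ fun a b h => by
    simpa using (Prod.mk.inj h).1
  have hEcard : ((E1 ∪ E2) ∪ E3').card = A1.card + A2.card + A3.card := by
    rw [Finset.card_union_of_disjoint hd123, Finset.card_union_of_disjoint hd12, hc1, hc2, hc3]
  have hEprop : ∀ p ∈ (E1 ∪ E2) ∪ E3', p.1 < p.2 ∧ p.2 < n ∧ dist (pt m p.1) (pt m p.2) = 1 := by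
    intro p hp
    simp only [Finset.mem_union, hE1, hE2, hE3, Finset.mem_image] at hp
    rcases hp with (⟨k, hk, rfl⟩ | ⟨k, hk, rfl⟩) | ⟨k, hk, rfl⟩
    · rw [hA1, Finset.mem_filter, Finset.mem_range] at hk
      exact ⟨by simp, by simp only; omega, dist_pt_one hk.2⟩
    · rw [hA2, Finset.mem_filter, Finset.mem_range] at hk
      exact ⟨by simp only; omega, by simp only; omega, dist_pt_two hk.2⟩
    · rw [hA3, Finset.mem_range] at hk
      exact ⟨by simp only; omega, by simp only; omega, dist_pt_three (by omega)⟩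
  have hle : ((E1 ∪ E2) ∪ E3').card ≤ contactNumber (box m n) := by
    unfold contactNumber
    rw [← Set.ncard_coe_finset]
    apply Set.ncard_le_ncard_of_injOn (fun p : ℕ × ℕ => s(pt m p.1, pt m p.2))
      (ht := edgeSet_finite _)
    · intro p hp
      obtain ⟨h1, h2, h3⟩ := hEprop p hp
      simp only [SimpleGraph.mem_edgeSet]
      rw [adj_iff hP]
      refine ⟨?_, ?_, h3⟩
      · exact Finset.mem_image_of_mem _ (Finset.mem_range.mpr (by omega))
      · exact Finset.mem_image_of_mem _ (Finset.mem_range.mpr h2)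
    · intro p hp q hq hpq
      obtain ⟨h1, _, _⟩ := hEprop p hp
      obtain ⟨h2, _, _⟩ := hEprop q hq
      simp only [Sym2.eq_iff] at hpq
      rcases hpq with ⟨h3, h4⟩ | ⟨h3, h4⟩
      · exact Prod.ext (pt_injective h3) (pt_injective h4)
      · have := pt_injective h3
        have := pt_injective h4
        omega
  -- cardinalities
  have hA1c : (n : ℝ) - 1 - (n : ℝ) / m ≤ A1.card := by
    have h1 := Finset.card_filter_add_card_filter_not (s := Finset.range (n - 1))
      (fun k => k % m + 1 < m)
    have h2 : ((Finset.range (n - 1)).filter fun k => ¬ k % m + 1 < m) =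
        (Finset.range (n - 1)).filter fun k => m ∣ k + 1 := by
      apply Finset.filter_congr
      intro k _
      have hk : k % m < m := Nat.mod_lt _ (by omega)
      constructor
      · intro h
        have : k % m + 1 = m := by omega
        rw [Nat.dvd_iff_mod_eq_zero, Nat.add_mod, Nat.mod_eq_of_lt (a := 1) (by omega), this,
          Nat.mod_self]
      · intro h hlt
        rw [Nat.dvd_iff_mod_eq_zero, Nat.add_mod, Nat.mod_eq_of_lt (a := 1) (by omega),
          Nat.mod_eq_of_lt hlt] at h
        omega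
    rw [h2, Nat.card_multiples, Finset.card_range] at h1
    have h3 : (((n - 1) / m : ℕ) : ℝ) ≤ (n : ℝ) / m := by
      refine Nat.cast_div_le.trans ?_
      have : ((n - 1 : ℕ) : ℝ) ≤ n := by exact_mod_cast Nat.sub_le _ _
      gcongr
    have h4 : (n : ℝ) - 1 ≤ ((n - 1 : ℕ) : ℝ) := by
      have : n ≤ (n - 1) + 1 := by omega
      have : (n : ℝ) ≤ ((n - 1 : ℕ) : ℝ) + 1 := by exact_mod_cast this
      linarith
    have h5 : (A1.card : ℝ) + (((n - 1) / m : ℕ) : ℝ) = ((n - 1 : ℕ) : ℝ) := by
      exact_mod_cast h1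
    linarith
  have hA2c : (n : ℝ) - m - (n : ℝ) / m ≤ A2.card := by
    have h1 := Finset.card_filter_add_card_filter_not (s := Finset.range (n - m))
      (fun k => k / m % m + 1 < m)
    set B := (Finset.range (n - m)).filter fun k => ¬ k / m % m + 1 < m with hB
    have h2 : B.card ≤ m * (B.image fun k => k / m).card := by
      apply Finset.card_le_mul_card_image
      intro j _
      have : (B.filter fun k => k / m = j) ⊆ Finset.Ico (j * m) (j * m + m) := by
        intro k hk
        rw [Finset.mem_filter] at hk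
        rw [Finset.mem_Ico, ← hk.2]
        have h3 := Nat.div_add_mod k m
        have h4 := Nat.mod_lt k (show m > 0 by omega)
        rw [mul_comm] at h3
        constructor <;> omega
      have := Finset.card_le_card this
      simpa using this
    have h3 : (B.image fun k => k / m) ⊆ (Finset.range (n / m)).filter fun j => m ∣ j + 1 := by
      intro j hj
      rw [Finset.mem_image] at hj
      obtain ⟨k, hk, rfl⟩ := hj
      rw [hB, Finset.mem_filter, Finset.mem_range] at hk
      rw [Finset.mem_filter, Finset.mem_range]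
      constructor
      · have h4 : (k + m) / m = k / m + 1 := Nat.add_div_right k (by omega)
        have h5 : (k + m) / m ≤ n / m := Nat.div_le_div_right (by omega)
        omega
      · have h6 : k / m % m < m := Nat.mod_lt _ (by omega)
        have : k / m % m + 1 = m := by omega
        rw [Nat.dvd_iff_mod_eq_zero, Nat.add_mod, Nat.mod_eq_of_lt (a := 1) (by omega), this,
          Nat.mod_self]
    have h4 := Finset.card_le_card h3
    rw [Nat.card_multiples] at h4
    have h5 : (B.card : ℝ) ≤ (n : ℝ) / m := by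
      have h6 : B.card ≤ m * (n / m / m) := h2.trans (Nat.mul_le_mul_left _ h4)
      have h7 : m * (n / m / m) ≤ n / m := Nat.mul_div_le _ _
      have h8 : ((n / m : ℕ) : ℝ) ≤ (n : ℝ) / m := Nat.cast_div_le
      have h9 : (B.card : ℝ) ≤ ((n / m : ℕ) : ℝ) := by exact_mod_cast h6.trans h7
      linarith
    rw [Finset.card_range] at h1
    have h6 : (n : ℝ) - m ≤ ((n - m : ℕ) : ℝ) := by
      have : n ≤ (n - m) + m := by omega
      have : (n : ℝ) ≤ ((n - m : ℕ) : ℝ) + m := by exact_mod_cast this
      linarith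
    have h7 : (A2.card : ℝ) + (B.card : ℝ) = ((n - m : ℕ) : ℝ) := by
      exact_mod_cast h1
    linarith
  have hA3c : (n : ℝ) - (m : ℝ) ^ 2 ≤ A3.card := by
    rw [hA3, Finset.card_range]
    have : n ≤ (n - m * m) + m * m := by omega
    have : (n : ℝ) ≤ ((n - m * m : ℕ) : ℝ) + m * m := by exact_mod_cast this
    nlinarith
  have hfin : ((A1.card + A2.card + A3.card : ℕ) : ℝ) ≤ contactNumber (box m n) := by
    rw [← hEcard]; exact_mod_cast hle
  push_cast at hfin
  linarith

end Pool.Agent.H62.Sep
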