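import Pool.Agent.H62.Sep.Defs

open Metric

namespace Pool.Agent.H62.Sep

/-- in a packing, distinct centres are at distance at least one -/
lemma one_le_dist {C : Finset E3} (h : IsUnitPacking C) {a b : E3} (ha : a ∈ C) (hb : b ∈ C)
    (hab : a ≠ b) : 1 ≤ dist a b := by
  have h1 := h a ha b hb hab
  rw [disjoint_ball_ball_iff (by norm_num) (by norm_num)] at h1
  linarith

lemma touch_iff {a b : E3} :
    (closedBall a (1 / 2 : ℝ) ∩ closedBall b (1 / 2)).Nonempty ↔ dist a b ≤ 1 := by
  rw [← Set.not_disjoint_iff_nonempty_inter,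
    disjoint_closedBall_closedBall_iff (by norm_num) (by norm_num)]
  constructor
  · intro h; push Not at h; linarith
  · intro h; push Not; linarith

/-- the combinatorial form of total separability -/
def Star (C : Finset E3) : Prop :=
  ∀ a ∈ C, ∀ b ∈ C, dist a b = 1 → ∀ c ∈ C,
    inner ℝ (b - a) (c - a) ≤ 0 ∨ 1 ≤ inner ℝ (b - a) (c - a)

lemma star_of_totallySeparable {C : Finset E3} (h : IsTotallySeparable C) : Star C := by
  intro a ha b hb hab c hc
  have hne : a ≠ b := by
    rintro rfl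
    simp at hab
  obtain ⟨u, t, hu, h1, h2, h3⟩ := h.2 a ha b hb hne
  have hun : 0 < ‖u‖ := norm_pos_iff.mpr hu
  have hun2 : ‖u‖ ≠ 0 := hun.ne'
  -- support inequality at `a`
  have ha1 : inner ℝ u a + ‖u‖ / 2 ≤ t := by
    have := h1 (a + ((1 / 2 : ℝ) * ‖u‖⁻¹) • u) (by
      rw [mem_closedBall, dist_eq_norm]
      simp only [add_sub_cancel_left, norm_smul, norm_mul, norm_inv, norm_norm]
      rw [mul_assoc, inv_mul_cancel₀ hun2]
      norm_num)
    rw [inner_add_right, inner_smul_right, real_inner_self_eq_norm_sq] at this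
    have h4 : (1 / 2 : ℝ) * ‖u‖⁻¹ * ‖u‖ ^ 2 = ‖u‖ / 2 := by
      field_simp
    linarith
  have hb1 : t ≤ inner ℝ u b - ‖u‖ / 2 := by
    have := h2 (b - ((1 / 2 : ℝ) * ‖u‖⁻¹) • u) (by
      rw [mem_closedBall, dist_eq_norm]
      simp only [sub_sub_cancel_left, norm_neg, norm_smul, norm_mul, norm_inv, norm_norm]
      rw [mul_assoc, inv_mul_cancel₀ hun2]
      norm_num)
    rw [inner_sub_right, inner_smul_right, real_inner_self_eq_norm_sq] at this
    have h4 : (1 / 2 : ℝ) * ‖u‖⁻¹ * ‖u‖ ^ 2 = ‖u‖ / 2 := by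
      field_simp
    linarith
  have hc1 : ‖u‖ / 2 ≤ |t - inner ℝ u c| := by
    by_contra hcon
    push Not at hcon
    have hd := h3 c hc
    rw [Set.disjoint_left] at hd
    refine hd (a := c + ((t - inner ℝ u c) * (‖u‖ ^ 2)⁻¹) • u) ?_ ?_
    · simp only [Set.mem_ofPred_eq]
      rw [inner_add_right, inner_smul_right, real_inner_self_eq_norm_sq]
      field_simp
      ring
    · rw [mem_ball, dist_eq_norm]
      simp only [add_sub_cancel_left, norm_smul, norm_mul, norm_inv, norm_pow,
        Real.norm_eq_abs, abs_norm]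
      have : |t - inner ℝ u c| * (‖u‖ ^ 2)⁻¹ * ‖u‖ = |t - inner ℝ u c| / ‖u‖ := by
        field_simp
      rw [this, div_lt_iff₀ hun]
      linarith
  have hba : ‖b - a‖ = 1 := by rw [← dist_eq_norm, dist_comm]; exact hab
  have hinner : inner ℝ u (b - a) = ‖u‖ * ‖b - a‖ := by
    apply le_antisymm (real_inner_le_norm _ _)
    rw [hba, inner_sub_right]
    linarith
  have hueq : u = ‖u‖ • (b - a) := by
    have := inner_eq_norm_mul_iff_real.mp hinner
    rwa [hba, one_smul] at this
  have ht : t = inner ℝ u a + ‖u‖ / 2 := by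
    have : inner ℝ u (b - a) = ‖u‖ := by rw [hinner, hba, mul_one]
    rw [inner_sub_right] at this
    linarith
  have hcc : inner ℝ u c - inner ℝ u a = ‖u‖ * inner ℝ (b - a) (c - a) := by
    rw [← inner_sub_right]
    conv_lhs => rw [hueq]
    rw [inner_smul_left]
    simp
  have h5 : t - inner ℝ u c = ‖u‖ * (1 / 2 - inner ℝ (b - a) (c - a)) := by
    rw [mul_sub, ← hcc, ht]; ring
  rw [h5, abs_mul, abs_of_pos hun] at hc1
  have h6 : 1 / 2 ≤ |1 / 2 - inner ℝ (b - a) (c - a)| := by
    by_contra hcon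
    push Not at hcon
    have := mul_lt_mul_of_pos_left hcon hun
    linarith
  rcases le_abs.mp h6 with h7 | h7
  · left; linarith
  · right; linarith

end Pool.Agent.H62.Sep
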