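import Pool.Agent.H62.Sep.Count

open Metric Module

namespace Pool.Agent.H62.Sep

open scoped Classical in
/-- discrete Loomis-Whitney inequality in dimension three -/
lemma loomis_whitney {α β γ : Type*} (S : Finset (α × β × γ)) :
    (S.card : ℝ) ^ 2 ≤ ((S.image fun p => (p.1, p.2.1)).card : ℝ) *
      (((S.image fun p => (p.1, p.2.2)).card : ℝ) * ((S.image fun p => p.2).card : ℝ)) := by
  set Z := S.image fun p => p.2.2 with hZ
  set sl : γ → Finset (α × β × γ) := fun c => S.filter fun p => p.2.2 = c with hsl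
  have hS : S.card = ∑ c ∈ Z, (sl c).card :=
    Finset.card_eq_sum_card_fiberwise fun p hp => Finset.mem_image_of_mem _ hp
  -- the projections of the slices
  set X : γ → Finset α := fun c => (sl c).image fun p => p.1 with hX
  set Y : γ → Finset β := fun c => (sl c).image fun p => p.2.1 with hY
  have h1 : (S.image fun p => (p.1, p.2.2)).card = ∑ c ∈ Z, (X c).card := by
    rw [Finset.card_eq_sum_card_fiberwise (f := fun q : α × γ => q.2) (t := Z)]
    · apply Finset.sum_congr rfl
      intro c _
      rw [← Finset.card_image_of_injOn (f := fun q : α × γ => q.1)]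
      · congr 1
        ext x
        simp only [Finset.mem_image, Finset.mem_filter, hX, hsl]
        constructor
        · rintro ⟨q, ⟨⟨p, hp, rfl⟩, hq⟩, rfl⟩
          exact ⟨p, ⟨hp, hq⟩, rfl⟩
        · rintro ⟨p, ⟨hp, hq⟩, rfl⟩
          exact ⟨(p.1, p.2.2), ⟨⟨p, hp, rfl⟩, hq⟩, rfl⟩
      · intro q hq r hr hqr
        simp only [Finset.coe_filter, Set.mem_ofPred_eq] at hq hr
        exact Prod.ext hqr (hq.2.trans hr.2.symm)
    · intro q hq
      simp only [Finset.coe_image, Set.mem_image, Finset.mem_coe] at hq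
      obtain ⟨p, hp, rfl⟩ := hq
      exact Finset.mem_image_of_mem _ hp
  have h2 : (S.image fun p => p.2).card = ∑ c ∈ Z, (Y c).card := by
    rw [Finset.card_eq_sum_card_fiberwise (f := fun q : β × γ => q.2) (t := Z)]
    · apply Finset.sum_congr rfl
      intro c _
      rw [← Finset.card_image_of_injOn (f := fun q : β × γ => q.1)]
      · congr 1
        ext x
        simp only [Finset.mem_image, Finset.mem_filter, hY, hsl]
        constructor
        · rintro ⟨q, ⟨⟨p, hp, rfl⟩, hq⟩, rfl⟩
          exact ⟨p, ⟨hp, hq⟩, rfl⟩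
        · rintro ⟨p, ⟨hp, hq⟩, rfl⟩
          exact ⟨p.2, ⟨⟨p, hp, rfl⟩, hq⟩, rfl⟩
      · intro q hq r hr hqr
        simp only [Finset.coe_filter, Set.mem_ofPred_eq] at hq hr
        exact Prod.ext hqr (hq.2.trans hr.2.symm)
    · intro q hq
      simp only [Finset.coe_image, Set.mem_image, Finset.mem_coe] at hq
      obtain ⟨p, hp, rfl⟩ := hq
      exact Finset.mem_image_of_mem _ hp
  have h3 : ∀ c ∈ Z, ((sl c).card : ℝ) ≤
      Real.sqrt ((S.image fun p => (p.1, p.2.1)).card : ℝ) *
        (Real.sqrt (X c).card * Real.sqrt (Y c).card) := by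
    intro c _
    have ha : (sl c).card ≤ (S.image fun p => (p.1, p.2.1)).card := by
      apply Finset.card_le_card_of_injOn fun p => (p.1, p.2.1)
      · intro p hp
        have hp' : p ∈ sl c := hp
        rw [hsl] at hp'
        simp only [Finset.mem_filter] at hp'
        exact Finset.mem_image_of_mem _ hp'.1
      · intro p hp q hq hpq
        have hp' : p ∈ sl c := hp
        have hq' : q ∈ sl c := hq
        rw [hsl] at hp' hq'
        simp only [Finset.mem_filter] at hp' hq'
        simp only [Prod.mk.injEq] at hpq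
        exact Prod.ext hpq.1 (Prod.ext hpq.2 (hp'.2.trans hq'.2.symm))
    have hb : (sl c).card ≤ (X c).card * (Y c).card := by
      rw [← Finset.card_product]
      apply Finset.card_le_card_of_injOn fun p => (p.1, p.2.1)
      · intro p hp
        have hp' : p ∈ sl c := hp
        simp only [Finset.coe_product, Set.mem_prod, Finset.mem_coe]
        exact ⟨Finset.mem_image_of_mem _ hp', Finset.mem_image_of_mem _ hp'⟩
      · intro p hp q hq hpq
        have hp' : p ∈ sl c := hp
        have hq' : q ∈ sl c := hq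
        rw [hsl] at hp' hq'
        simp only [Finset.mem_filter] at hp' hq'
        simp only [Prod.mk.injEq] at hpq
        exact Prod.ext hpq.1 (Prod.ext hpq.2 (hp'.2.trans hq'.2.symm))
    rw [← Real.sqrt_mul (by positivity), ← Real.sqrt_mul (by positivity)]
    apply Real.le_sqrt_of_sq_le
    rw [sq]
    apply mul_le_mul
    · exact_mod_cast ha
    · exact_mod_cast hb
    · positivity
    · positivity
  have h4 : (S.card : ℝ) ≤ Real.sqrt ((S.image fun p => (p.1, p.2.1)).card : ℝ) *
      ∑ c ∈ Z, Real.sqrt (X c).card * Real.sqrt (Y c).card := by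
    rw [hS, Finset.mul_sum]
    push_cast
    exact Finset.sum_le_sum h3
  have h5 := Finset.sum_mul_sq_le_sq_mul_sq Z (fun c => Real.sqrt (X c).card)
    (fun c => Real.sqrt (Y c).card)
  simp only [Real.sq_sqrt (Nat.cast_nonneg _)] at h5
  calc (S.card : ℝ) ^ 2 ≤ (Real.sqrt ((S.image fun p => (p.1, p.2.1)).card : ℝ) *
      ∑ c ∈ Z, Real.sqrt (X c).card * Real.sqrt (Y c).card) ^ 2 := by
        apply pow_le_pow_left₀ (by positivity) h4
    _ = ((S.image fun p => (p.1, p.2.1)).card : ℝ) *
      (∑ c ∈ Z, Real.sqrt (X c).card * Real.sqrt (Y c).card) ^ 2 := by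
        rw [mul_pow, Real.sq_sqrt (Nat.cast_nonneg _)]
    _ ≤ ((S.image fun p => (p.1, p.2.1)).card : ℝ) *
      ((∑ c ∈ Z, ((X c).card : ℝ)) * ∑ c ∈ Z, ((Y c).card : ℝ)) := by
        apply mul_le_mul_of_nonneg_left h5 (by positivity)
    _ = _ := by rw [h1, h2]; push_cast; rfl

/-- the arithmetic-geometric mean inequality in the form needed -/
lemma amgm {x y z s : ℝ} (hx : 0 ≤ x) (hy : 0 ≤ y) (hz : 0 ≤ z) (hs : 0 ≤ s)
    (h : s ^ 2 ≤ x * (y * z)) : 3 * s ^ ((2 : ℝ) / 3) ≤ x + y + z := by
  have h1 := Real.geom_mean_le_arith_mean3_weighted (w₁ := 1 / 3) (w₂ := 1 / 3) (w₃ := 1 / 3)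
    (by norm_num) (by norm_num) (by norm_num) hx hy hz (by norm_num)
  have h2 : x ^ ((1 : ℝ) / 3) * y ^ ((1 : ℝ) / 3) * z ^ ((1 : ℝ) / 3) =
      (x * (y * z)) ^ ((1 : ℝ) / 3) := by
    rw [Real.mul_rpow hx (by positivity), Real.mul_rpow hy hz, mul_assoc]
  have h3 : s ^ ((2 : ℝ) / 3) ≤ (x * (y * z)) ^ ((1 : ℝ) / 3) := by
    have : s ^ ((2 : ℝ) / 3) = (s ^ 2) ^ ((1 : ℝ) / 3) := by
      rw [← Real.rpow_natCast, ← Real.rpow_mul hs]
      norm_num
    rw [this]
    exact Real.rpow_le_rpow (by positivity) h (by norm_num)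
  rw [h2] at h1
  linarith

lemma proj_neg (f x : E3) : proj (-f) x = proj f x := by
  unfold proj
  rw [inner_neg_left]
  module

open scoped Classical in
lemma lw_basis (e : OrthonormalBasis (Fin 3) ℝ E3) (S : Finset E3) :
    3 * (S.card : ℝ) ^ ((2 : ℝ) / 3) ≤ ∑ i, ((S.image (proj (e i))).card : ℝ) := by
  set φ : E3 → ℝ × ℝ × ℝ := fun x => (inner ℝ (e 0) x, inner ℝ (e 1) x, inner ℝ (e 2) x) with hφ
  have hφinj : Function.Injective φ := by
    intro x y hxy
    simp only [hφ, Prod.mk.injEq] at hxy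
    rw [← e.sum_repr' x, ← e.sum_repr' y]
    simp only [Fin.sum_univ_three, hxy.1, hxy.2.1, hxy.2.2]
  have hcard : (S.image φ).card = S.card := Finset.card_image_of_injective _ hφinj
  have key : ∀ (i j k : Fin 3), i ≠ j → i ≠ k →
      (S.image fun x => ((inner ℝ (e j) x : ℝ), (inner ℝ (e k) x : ℝ))).card ≤
        (S.image (proj (e i))).card := by
    intro i j k hij hik
    have : (S.image fun x => ((inner ℝ (e j) x : ℝ), (inner ℝ (e k) x : ℝ))) =
        (S.image (proj (e i))).image
          fun x => ((inner ℝ (e j) x : ℝ), (inner ℝ (e k) x : ℝ)) := by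
      rw [Finset.image_image]
      apply Finset.image_congr
      intro x _
      simp only [Function.comp, proj, inner_sub_right, inner_smul_right]
      rw [e.orthonormal.2 hij.symm, e.orthonormal.2 hik.symm]
      simp
    rw [this]
    exact Finset.card_image_le
  have h := loomis_whitney (S.image φ)
  rw [Finset.image_image, Finset.image_image, Finset.image_image, hcard] at h
  have h01 := key 2 0 1 (by decide) (by decide)
  have h02 := key 1 0 2 (by decide) (by decide)
  have h12 := key 0 1 2 (by decide) (by decide)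
  rw [Fin.sum_univ_three]
  have h01' : (((S.image fun x => ((inner ℝ (e 0) x : ℝ), (inner ℝ (e 1) x : ℝ))).card : ℕ) : ℝ) ≤
      ((S.image (proj (e 2))).card : ℝ) := by exact_mod_cast h01
  have h02' : (((S.image fun x => ((inner ℝ (e 0) x : ℝ), (inner ℝ (e 2) x : ℝ))).card : ℕ) : ℝ) ≤
      ((S.image (proj (e 1))).card : ℝ) := by exact_mod_cast h02
  have h12' : (((S.image fun x => ((inner ℝ (e 1) x : ℝ), (inner ℝ (e 2) x : ℝ))).card : ℕ) : ℝ) ≤
      ((S.image (proj (e 0))).card : ℝ) := by exact_mod_cast h12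
  have h' : (S.card : ℝ) ^ 2 ≤ ((S.image (proj (e 2))).card : ℝ) *
      (((S.image (proj (e 1))).card : ℝ) * ((S.image (proj (e 0))).card : ℝ)) := by
    refine h.trans ?_
    apply mul_le_mul
    · exact h01'
    · apply mul_le_mul
      · exact h02'
      · exact h12'
      · positivity
      · positivity
    · positivity
    · positivity
  have := amgm (by positivity) (by positivity) (by positivity) (by positivity) h'
  linarith

open scoped Classical in
lemma frame_bound {C : Finset E3} (hS : Star C) {F : Finset E3} (hF : F ∈ frames C) :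
    6 * ((cls C F).card : ℝ) ^ ((2 : ℝ) / 3) ≤
      ∑ f ∈ F, (((cls C F).image (proj f)).card : ℝ) := by
  unfold frames at hF
  rw [Finset.mem_image] at hF
  obtain ⟨a, ha, hFa⟩ := hF
  unfold six at ha
  rw [Finset.mem_filter] at ha
  obtain ⟨haC, h6⟩ := ha
  obtain ⟨e, he⟩ := exists_basis hS haC h6
  have hFe : F = (Finset.univ.image fun i => e i) ∪ (Finset.univ.image fun i => -e i) := by
    ext u
    rw [← hFa, he u]
    simp only [Finset.mem_union, Finset.mem_image, Finset.mem_univ, true_and]
    constructor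
    · rintro ⟨i, rfl | rfl⟩
      · left; exact ⟨i, rfl⟩
      · right; exact ⟨i, rfl⟩
    · rintro (⟨i, rfl⟩ | ⟨i, rfl⟩)
      · exact ⟨i, Or.inl rfl⟩
      · exact ⟨i, Or.inr rfl⟩
  have hdisj : Disjoint (Finset.univ.image fun i => e i) (Finset.univ.image fun i => -e i) := by
    rw [Finset.disjoint_left]
    intro u hu hv
    simp only [Finset.mem_image, Finset.mem_univ, true_and] at hu hv
    obtain ⟨i, rfl⟩ := hu
    obtain ⟨j, hj⟩ := hv
    have h1 : inner ℝ (-e j) (e i) = inner ℝ (e i) (e i) := by rw [hj]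
    rw [inner_neg_left, real_inner_self_eq_norm_sq, e.norm_eq_one] at h1
    have h2 : inner ℝ (e j) (e i) = if j = i then (1 : ℝ) else 0 :=
      (orthonormal_iff_ite.mp e.orthonormal) j i
    rw [h2] at h1
    split_ifs at h1 <;> norm_num at h1
  have hinj1 : Set.InjOn (fun i => e i) (Finset.univ : Finset (Fin 3)) :=
    fun i _ j _ h => e.toBasis.injective (by simpa using h)
  have hinj2 : Set.InjOn (fun i => -e i) (Finset.univ : Finset (Fin 3)) :=
    fun i _ j _ h => e.toBasis.injective (by simpa using h)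
  rw [hFe, Finset.sum_union hdisj, Finset.sum_image hinj1, Finset.sum_image hinj2, ← hFe]
  have h1 : ∀ i, (cls C F).image (proj (-e i)) = (cls C F).image (proj (e i)) := by
    intro i
    congr 1
    ext x
    rw [proj_neg]
  simp only [h1]
  have := lw_basis e (cls C F)
  linarith

lemma rpow_sum_le {ι : Type*} (s : Finset ι) (f : ι → ℝ) (hf : ∀ i ∈ s, 0 ≤ f i) :
    (∑ i ∈ s, f i) ^ ((2 : ℝ) / 3) ≤ ∑ i ∈ s, f i ^ ((2 : ℝ) / 3) := by
  classical
  induction s using Finset.induction_on with
  | empty => simp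
  | insert a s ha ih =>
    rw [Finset.sum_insert ha, Finset.sum_insert ha]
    have h1 : 0 ≤ f a := hf a (Finset.mem_insert_self _ _)
    have h2 : 0 ≤ ∑ i ∈ s, f i :=
      Finset.sum_nonneg fun i hi => hf i (Finset.mem_insert_of_mem hi)
    have h3 := ih fun i hi => hf i (Finset.mem_insert_of_mem hi)
    have h4 : (f a + ∑ i ∈ s, f i) ^ ((2 : ℝ) / 3) ≤
        f a ^ ((2 : ℝ) / 3) + (∑ i ∈ s, f i) ^ ((2 : ℝ) / 3) :=
      Real.rpow_add_le_add_rpow h1 h2 (by norm_num) (by norm_num)
    linarith

/-- Key inequality: the number of missing contacts is at least six times the two-thirds power of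
the number of balls with six contacts. -/
lemma six_rpow_le {C : Finset E3} (hS : Star C) :
    6 * ((six C).card : ℝ) ^ ((2 : ℝ) / 3) ≤ ∑ z ∈ C, (6 - ((dirs C z).card : ℝ)) := by
  classical
  have h1 : ((six C).card : ℝ) = ∑ F ∈ frames C, ((cls C F).card : ℝ) := by
    have : (six C).card = ∑ F ∈ frames C, (cls C F).card := by
      unfold frames
      have := Finset.card_eq_sum_card_fiberwise (s := six C) (t := (six C).image (dirs C))
        (f := dirs C) (fun a ha => Finset.mem_image_of_mem _ ha)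
      rw [this]
      apply Finset.sum_congr (by congr)
      intro F _
      unfold cls
      congr
    rw [this]; push_cast; rfl
  have h2 := rpow_sum_le (frames C) (fun F => ((cls C F).card : ℝ)) (fun _ _ => by positivity)
  have h3 : ∑ F ∈ frames C, 6 * ((cls C F).card : ℝ) ^ ((2 : ℝ) / 3) ≤
      ∑ F ∈ frames C, ∑ f ∈ F, (((cls C F).image (proj f)).card : ℝ) :=
    Finset.sum_le_sum fun F hF => by convert frame_bound hS hF
  have h4 := sum_sum_proj_le hS
  have h5 : ∑ F ∈ frames C, ∑ f ∈ F, (((cls C F).image (proj f)).card : ℝ) ≤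
      ((∑ z ∈ C, (6 - (dirs C z).card) : ℕ) : ℝ) := by
    have h6 : ∑ F ∈ frames C, ∑ f ∈ F, (((cls C F).image (proj f)).card : ℝ) =
        ((∑ F ∈ frames C, ∑ f ∈ F, ((cls C F).image (proj f)).card : ℕ) : ℝ) := by
      push_cast; rfl
    rw [h6]
    exact_mod_cast (by convert h4)
  have h7 : ((∑ z ∈ C, (6 - (dirs C z).card) : ℕ) : ℝ) = ∑ z ∈ C, (6 - ((dirs C z).card : ℝ)) := by
    push_cast
    apply Finset.sum_congr rfl
    intro z hz
    rw [Nat.cast_sub (dirs_card_le hS hz)]
    norm_num
  rw [h7] at h5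
  rw [← Finset.mul_sum] at h3
  rw [h1]
  linarith

end Pool.Agent.H62.Sep
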